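import Pool.Agent.TH509.Red.Petersen

/-!
# A circuit cover of depth four which cannot be reduced

The cubic graph with 42 vertices and 63 edges: the Petersen graph (edges `0, …, 14`), four of whose
vertices (`0, 4, 6, 7`) are replaced by copies of the Petersen graph minus a vertex. The four circuits
`ord i` cover the edges with the multiplicities `wL`.
-/

set_option autoImplicit false

namespace Pool.Agent.TH509.Red

/-- first ends -/
def aL : List (Fin 42) :=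
  [0, 0, 1, 2, 9, 3, 0, 1, 2, 5, 3, 4, 5, 4, 5, 6, 7, 8, 6, 7, 8, 9, 10, 11, 12, 13, 14, 15,
   16, 17, 15, 16, 17, 18, 19, 20, 21, 22, 23, 24, 25, 26, 24, 25, 26, 27, 28, 29, 30, 31, 32,
   33, 34, 35, 33, 34, 35, 36, 37, 38, 39, 40, 41]

/-- second ends -/
def bL : List (Fin 42) :=
  [6, 1, 2, 15, 18, 10, 28, 37, 4, 19, 36, 24, 33, 3, 27, 7, 8, 9, 11, 12, 13, 14, 12, 13, 14,
   10, 11, 16, 17, 18, 20, 21, 22, 23, 21, 22, 23, 19, 20, 25, 26, 27, 29, 30, 31, 32, 30, 31,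
   32, 28, 29, 34, 35, 36, 38, 39, 40, 41, 39, 40, 41, 37, 38]

/-- the three edges at each vertex -/
def i0L : List (Fin 63) :=
  [0, 1, 2, 5, 8, 9, 0, 15, 16, 17, 5, 18, 19, 20, 21, 3, 27, 28, 29, 9, 30, 31, 32, 33, 11,
   39, 40, 41, 6, 42, 43, 44, 45, 12, 51, 52, 53, 7, 54, 55, 56, 57]

@[inherit_doc i0L]
def i1L : List (Fin 63) :=
  [1, 2, 3, 10, 11, 12, 15, 16, 17, 4, 22, 23, 22, 23, 24, 27, 28, 29, 4, 34, 35, 34, 35, 36,
   39, 40, 41, 14, 46, 47, 46, 47, 48, 51, 52, 53, 10, 58, 59, 58, 59, 60]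

@[inherit_doc i0L]
def i2L : List (Fin 63) :=
  [6, 7, 8, 13, 13, 14, 18, 19, 20, 21, 25, 26, 24, 25, 26, 30, 31, 32, 33, 37, 38, 36, 37, 38,
   42, 43, 44, 45, 49, 50, 48, 49, 50, 54, 55, 56, 57, 61, 62, 60, 61, 62]

/-- the graph -/
def ends (e : Fin 63) : Sym2 (Fin 42) := s(aL.getD e.1 0, bL.getD e.1 0)

@[inherit_doc i0L]
def i0 (v : Fin 42) : Fin 63 := i0L.getD v.1 0
@[inherit_doc i0L]
def i1 (v : Fin 42) : Fin 63 := i1L.getD v.1 0
@[inherit_doc i0L]
def i2 (v : Fin 42) : Fin 63 := i2L.getD v.1 0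

/-- the multiplicities of the cover -/
def wL : List ℕ :=
  [1, 4, 1, 1, 2, 3, 3, 3, 2, 3, 2, 1, 1, 1, 2, 2, 1, 1, 1, 1, 2, 1, 2, 1, 1, 1, 2, 2, 1, 1, 1,
   1, 2, 1, 2, 1, 1, 1, 2, 2, 1, 1, 1, 1, 2, 1, 2, 1, 1, 1, 2, 2, 1, 1, 1, 1, 2, 1, 2, 1, 1, 1,
   2]

/-- the four circuits, in cyclic order -/
def ord : Fin 4 → List (Fin 63) :=
  ![[0, 15, 19, 22, 5, 10, 57, 62, 54, 51, 52, 56, 61, 7, 1],
    [1, 7, 58, 55, 51, 12, 9, 34, 31, 27, 3, 8, 11, 39, 43, 46, 6],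
    [1, 7, 58, 60, 62, 59, 56, 53, 10, 5, 25, 20, 16, 15, 18, 26, 21, 4, 33, 38, 30, 27, 28, 32,
   37, 9, 14, 45, 50, 42, 39, 40, 44, 49, 6],
    [1, 2, 8, 13, 5, 22, 24, 26, 23, 20, 17, 4, 29, 32, 35, 38, 36, 34, 9, 14, 41, 44, 47, 50,
   48, 46, 6]]

/-- the embeddings of the Petersen graph: the leaves -/
def leaf : Fin 4 → Fin 15 → Fin 63 :=
  ![![0, 15, 16, 17, 4, 5, 18, 19, 20, 21, 22, 23, 24, 25, 26],
    ![3, 27, 28, 29, 4, 9, 30, 31, 32, 33, 34, 35, 36, 37, 38],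
    ![11, 39, 40, 41, 14, 6, 42, 43, 44, 45, 46, 47, 48, 49, 50],
    ![12, 51, 52, 53, 10, 7, 54, 55, 56, 57, 58, 59, 60, 61, 62]]

theorem inc_iff : ∀ (v : Fin 42) (x : Fin 63),
    ((v = aL.getD x.1 0 ∨ v = bL.getD x.1 0) ∧ ¬ (aL.getD x.1 0 = bL.getD x.1 0)) ↔
      (x = i0 v ∨ x = i1 v ∨ x = i2 v) := by
  decide +kernel

theorem inc_ne : ∀ v : Fin 42, i0 v ≠ i1 v ∧ i0 v ≠ i2 v ∧ i1 v ≠ i2 v := by
  decide +kernel

theorem ends_iff (v : Fin 42) (x : Fin 63) :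
    (v ∈ ends x ∧ ¬ (ends x).IsDiag) ↔ (x = i0 v ∨ x = i1 v ∨ x = i2 v) := by
  rw [← inc_iff v x]
  unfold ends
  rw [Sym2.mem_iff, Sym2.mk_isDiag_iff]

/-- the parity of a set of three elements -/
theorem even3 {α : Type} [DecidableEq α] (D : Finset α) (P : α → Prop) [DecidablePred P]
    (a b c : α) (hab : a ≠ b) (hac : a ≠ c) (hbc : b ≠ c)
    (hP : ∀ x, P x ↔ (x = a ∨ x = b ∨ x = c)) :
    Even (D.filter P).card ↔
      (xor (decide (a ∈ D)) (xor (decide (b ∈ D)) (decide (c ∈ D)))) = false := by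
  have h1 : D.filter P = ({a, b, c} : Finset α).filter (fun x => x ∈ D) := by
    ext x
    simp only [Finset.mem_filter, hP, Finset.mem_insert, Finset.mem_singleton]
    tauto
  rw [h1]
  by_cases ha : a ∈ D <;> by_cases hb : b ∈ D <;> by_cases hc : c ∈ D <;>
    simp [Finset.filter_insert, Finset.filter_singleton, ha, hb, hc, hab, hac, hbc]
  all_goals decide

/-- evenness at all vertices -/
def EvB (x : Fin 63 → Bool) : Prop :=
  ∀ v : Fin 42, xor (x (i0 v)) (xor (x (i1 v)) (x (i2 v))) = false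

theorem even_iff (D : Finset (Fin 63)) (v : Fin 42)
    (inst : DecidablePred fun x : Fin 63 => v ∈ ends x ∧ ¬ (ends x).IsDiag) :
    Even (@Finset.filter _ (fun x : Fin 63 => v ∈ ends x ∧ ¬ (ends x).IsDiag) inst D).card ↔
      xor (decide (i0 v ∈ D)) (xor (decide (i1 v ∈ D)) (decide (i2 v ∈ D))) = false := by
  obtain ⟨h1, h2, h3⟩ := inc_ne v
  exact even3 D _ _ _ _ h1 h2 h3 (ends_iff v)

/-- `e` and `f` are consecutive edges at `v` of the set `S` -/
def linkP (S : List (Fin 63)) (e f : Fin 63) (v : Fin 42) : Prop :=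
  (i0 v = e ∧ i1 v = f ∧ i2 v ∉ S) ∨ (i0 v = e ∧ i2 v = f ∧ i1 v ∉ S) ∨
  (i1 v = e ∧ i2 v = f ∧ i0 v ∉ S) ∨ (i0 v = f ∧ i1 v = e ∧ i2 v ∉ S) ∨
  (i0 v = f ∧ i2 v = e ∧ i1 v ∉ S) ∨ (i1 v = f ∧ i2 v = e ∧ i0 v ∉ S)

instance (S : List (Fin 63)) (e f : Fin 63) (v : Fin 42) : Decidable (linkP S e f v) := by
  unfold linkP; infer_instance

/-- consecutive elements of the list are linked -/
def chk (S : List (Fin 63)) : List (Fin 63) → Bool
  | [] => true
  | [_] => true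
  | a :: b :: t => decide (∃ v, linkP S a b v) && chk S (b :: t)

theorem chk_ord : ∀ i : Fin 4, chk (ord i) (ord i) = true := by
  decide +kernel

theorem ord_ne : ∀ i : Fin 4, ord i ≠ [] := by
  decide +kernel

theorem ord_even : ∀ (i : Fin 4) (v : Fin 42),
    xor (decide (i0 v ∈ (ord i).toFinset)) (xor (decide (i1 v ∈ (ord i).toFinset))
      (decide (i2 v ∈ (ord i).toFinset))) = false := by
  simp only [List.mem_toFinset]
  decide +kernel

theorem ord_depth : ∀ e : Fin 63,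
    (Finset.univ.filter fun i : Fin 4 => e ∈ ord i).card = wL.getD e.1 0 := by
  decide +kernel

theorem link_eq (x : Fin 63 → Bool) (hx : EvB x) (S : List (Fin 63))
    (hS : ∀ e, x e = true → e ∈ S) (e f : Fin 63) (v : Fin 42) (h : linkP S e f v) :
    x e = x f := by
  have hv := hx v
  have hn : ∀ g, g ∉ S → x g = false := fun g hg => by
    by_contra h'
    exact hg (hS g (by simpa using h'))
  rcases h with ⟨h1, h2, h3⟩ | ⟨h1, h2, h3⟩ | ⟨h1, h2, h3⟩ | ⟨h1, h2, h3⟩ | ⟨h1, h2, h3⟩ |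
    ⟨h1, h2, h3⟩ <;>
  · rw [hn _ h3, h1, h2] at hv
    revert hv
    cases x e <;> cases x f <;> simp

theorem chk_eq (x : Fin 63 → Bool) (hx : EvB x) (S : List (Fin 63))
    (hS : ∀ e, x e = true → e ∈ S) : ∀ l : List (Fin 63), chk S l = true →
    ∀ a ∈ l, ∀ b ∈ l, x a = x b := by
  intro l
  induction l with
  | nil => intro _ a ha; simp at ha
  | cons c l ih =>
    intro h
    cases l with
    | nil =>
      intro a ha b hb
      rw [List.mem_singleton] at ha hb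
      rw [ha, hb]
    | cons d t =>
      simp only [chk, Bool.and_eq_true, decide_eq_true_eq] at h
      obtain ⟨⟨v, hv⟩, h2⟩ := h
      have h3 : x c = x d := link_eq x hx S hS c d v hv
      have h4 : ∀ a ∈ c :: d :: t, x a = x d := by
        intro a ha
        rcases List.mem_cons.1 ha with rfl | ha
        · exact h3
        · exact ih h2 a ha d (by simp)
      intro a ha b hb
      rw [h4 a ha, h4 b hb]

/-- minimality of the four circuits -/
theorem ord_min (i : Fin 4) (D : Finset (Fin 63)) (hD : D ⊆ (ord i).toFinset) (hne : D.Nonempty)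
    (hev : EvB fun e => decide (e ∈ D)) : D = (ord i).toFinset := by
  refine Finset.Subset.antisymm hD ?_
  obtain ⟨a, ha⟩ := hne
  intro b hb
  have h1 := chk_eq (fun e => decide (e ∈ D)) hev (ord i)
    (fun e he => List.mem_toFinset.1 (hD (by simpa using he))) (ord i) (chk_ord i)
    a (List.mem_toFinset.1 (hD ha)) b (List.mem_toFinset.1 hb)
  simpa [ha] using h1.symm

/-! ## The pieces -/

theorem leaf_inc : ∀ l : Fin 4, ∃ v : Fin 9 → Fin 42,
    (∀ j, i0 (v j) = leaf l (![0, 1, 2, 3, 5, 6, 7, 8, 9] j)) ∧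
    (∀ j, i1 (v j) = leaf l (![1, 2, 3, 4, 10, 11, 10, 11, 12] j)) ∧
    (∀ j, i2 (v j) = leaf l (![6, 7, 8, 9, 13, 14, 12, 13, 14] j)) := by
  intro l
  refine ⟨fun j => ⟨6 + 9 * l.1 + j.1, by omega⟩, ?_⟩
  revert l
  decide +kernel

theorem leaf_mem (x : Fin 63 → Bool) (hx : EvB x) (l : Fin 4) :
    ∃ d ∈ EV, ∀ e : Fin 15, x (leaf l e) = Nat.testBit d e.1 := by
  obtain ⟨v, h0, h1, h2⟩ := leaf_inc l
  have key : ∀ j, xor (x (leaf l (![0, 1, 2, 3, 5, 6, 7, 8, 9] j)))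
      (xor (x (leaf l (![1, 2, 3, 4, 10, 11, 10, 11, 12] j)))
        (x (leaf l (![6, 7, 8, 9, 13, 14, 12, 13, 14] j)))) = false := by
    intro j
    rw [← h0 j, ← h1 j, ← h2 j]
    exact hx (v j)
  exact mem_EV (fun e => x (leaf l e)) (key 0) (key 1) (key 2) (key 3) (key 4) (key 5) (key 6)
    (key 7) (key 8)

theorem EV_star : ∀ d ∈ EV,
    xor (Nat.testBit d 0) (xor (Nat.testBit d 4) (Nat.testBit d 5)) = false := by
  decide +kernel

theorem star (x : Fin 63 → Bool) (hx : EvB x) (l : Fin 4) :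
    xor (x (leaf l 0)) (xor (x (leaf l 4)) (x (leaf l 5))) = false := by
  obtain ⟨d, hd, h⟩ := leaf_mem x hx l
  rw [h 0, h 4, h 5]
  exact EV_star d hd

/-- the embedding of the edges of the central Petersen graph -/
def ctr (e : Fin 15) : Fin 63 := ⟨e.1, by omega⟩

theorem rot1 {a b c : Bool} (h : xor a (xor b c) = false) : xor c (xor a b) = false := by
  revert h; cases a <;> cases b <;> cases c <;> simp

theorem rot2 {a b c : Bool} (h : xor a (xor b c) = false) : xor c (xor b a) = false := by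
  revert h; cases a <;> cases b <;> cases c <;> simp

theorem ctr_mem (x : Fin 63 → Bool) (hx : EvB x) :
    ∃ d ∈ EV, ∀ e : Fin 15, x (ctr e) = Nat.testBit d e.1 :=
  mem_EV (fun e => x (ctr e)) (hx 0) (hx 1) (hx 2) (star x hx 1) (hx 3) (rot1 (star x hx 2))
    (rot2 (star x hx 3)) (hx 4) (hx 5)

/-- no family of even sets has the multiplicities `w` on a piece `φ` if `w` is uncoverable -/
theorem no_family {m : ℕ} (F : Fin m → Finset (Fin 63)) (φ : Fin 15 → Fin 63)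
    (hφ : ∀ j, ∃ d ∈ EV, ∀ e : Fin 15, decide (φ e ∈ F j) = Nat.testBit d e.1) (w : List ℕ)
    (hun : ∀ L : Multiset (Fin 15 → ℕ), (∀ D ∈ L, ∃ d ∈ EV, D = toI d) → L.sum ≠ toF w) :
    ¬ ∀ e : Fin 15, (Finset.univ.filter fun j => φ e ∈ F j).card = toF w e := by
  intro h
  refine hun ((Finset.univ : Finset (Fin m)).val.map
    (fun j => fun e : Fin 15 => if φ e ∈ F j then 1 else 0)) ?_ ?_
  · intro D hD
    obtain ⟨j, _, rfl⟩ := Multiset.mem_map.1 hD
    obtain ⟨d, hd, h1⟩ := hφ j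
    refine ⟨d, hd, ?_⟩
    funext e
    have := h1 e
    unfold toI
    rw [← this]
    simp
  · funext e
    rw [← h e, Finset.card_filter]
    exact Finset.sum_apply e _ _

end Pool.Agent.TH509.Red
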