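import Mathlib

/-!
# Two weights on the Petersen graph without a faithful cover by even subgraphs

The Petersen graph has the vertices `0, …, 9` and the edges

    0: 0-1   1: 1-2   2: 2-3   3: 3-4   4: 4-0
    5: 0-5   6: 1-6   7: 2-7   8: 3-8   9: 4-9
    10: 5-7  11: 6-8  12: 7-9  13: 8-5  14: 9-6

A set of edges is coded by the natural number whose binary digits are the indicator of the set.
`EV` lists the 64 even edge sets.
-/

set_option autoImplicit false

namespace Pool.Agent.TH509.Red

/-- the codes of the 64 even edge sets of the Petersen graph -/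
def EV : List ℕ := 
  [0, 31, 1187, 1212, 2374, 2393, 3557, 3578, 4748, 4755, 5679, 5680, 7114, 7125, 8041, 8054, 8487, 8504, 9604, 9627, 10337, 10366, 11458, 11485, 13227, 13236, 14088, 14103, 15085, 15090, 15950, 15953, 16974, 16977, 18157, 18162, 19208, 19223, 20395, 20404, 20674, 20701, 21601, 21630, 22916, 22939, 23847, 23864, 25449, 25462, 26570, 26581, 27183, 27184, 28300, 28307, 29157, 29178, 30022, 30041, 30883, 30908, 31744, 31775]

/-- the indicator function of the set with code `d` -/
def toI (d : ℕ) : Fin 15 → ℕ := fun e => if d.testBit e.1 then 1 else 0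

/-- the function with the list `w` of values -/
def toF (w : List ℕ) : Fin 15 → ℕ := fun e => w.getD e.1 0

/-- subtract the indicator function of `d` -/
def subI (w : List ℕ) (d : ℕ) : List ℕ :=
  (List.range 15).map fun i => w.getD i 0 - (if d.testBit i then 1 else 0)

/-- the set `d` is contained in the support of `w` -/
def fits (w : List ℕ) (d : ℕ) : Bool :=
  (List.range 15).all fun i => !(d.testBit i) || decide (0 < w.getD i 0)

/-- exhaustive search: `w` is not a sum of indicator functions of members of `EV` -/
def uncov : ℕ → List ℕ → Bool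
  | 0, _ => false
  | n + 1, w =>
    match (List.range 15).find? (fun i => decide (0 < w.getD i 0)) with
    | none => false
    | some e => EV.all fun d => !(d.testBit e) || !(fits w d) || uncov n (subI w d)

theorem toF_subI (w : List ℕ) (d : ℕ) : toF (subI w d) = fun e => toF w e - toI d e := by
  funext e
  simp [toF, subI, toI, List.getD_eq_getElem?_getD, e.2]

theorem sum_apply' (L : Multiset (Fin 15 → ℕ)) (e : Fin 15) :
    L.sum e = (L.map fun f => f e).sum := by
  induction L using Multiset.induction_on with
  | empty => simp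
  | cons a L ih => simp [ih]

/-- the search is sound -/
theorem uncov_sound : ∀ (n : ℕ) (w : List ℕ), uncov n w = true →
    ∀ L : Multiset (Fin 15 → ℕ), (∀ D ∈ L, ∃ d ∈ EV, D = toI d) → L.sum ≠ toF w := by
  intro n
  induction n with
  | zero => intro w h; simp [uncov] at h
  | succ n ih =>
    intro w h L hL hsum
    unfold uncov at h
    split at h
    · simp at h
    · rename_i e he
      have he1 : e ∈ List.range 15 := List.mem_of_find?_eq_some he
      have he2 : 0 < w.getD e 0 := by simpa using List.find?_some he
      have he3 : e < 15 := List.mem_range.1 he1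
      have h1 : 0 < L.sum ⟨e, he3⟩ := by
        rw [hsum]; exact he2
      rw [sum_apply'] at h1
      have h2 : ∃ D ∈ L, 0 < D ⟨e, he3⟩ := by
        by_contra hcon
        push Not at hcon
        have : (L.map fun f => f ⟨e, he3⟩).sum = 0 := by
          apply Multiset.sum_eq_zero
          intro x hx
          obtain ⟨D, hD, rfl⟩ := Multiset.mem_map.1 hx
          exact Nat.le_zero.1 (hcon D hD)
        omega
      obtain ⟨D, hD, hDe⟩ := h2
      obtain ⟨d, hd, rfl⟩ := hL D hD
      obtain ⟨L', rfl⟩ := Multiset.exists_cons_of_mem hD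
      rw [Multiset.sum_cons] at hsum
      have hle : ∀ i : Fin 15, toI d i ≤ toF w i := by
        intro i
        rw [← hsum]
        simp
      have h3 := List.all_eq_true.1 h d hd
      have h4 : d.testBit e = true := by
        by_contra h4
        simp [toI, h4] at hDe
      have h5 : fits w d = true := by
        unfold fits
        rw [List.all_eq_true]
        intro i hi
        have hi' := List.mem_range.1 hi
        have h6 := hle ⟨i, hi'⟩
        simp only [toI, toF] at h6
        by_cases h7 : d.testBit i
        · simp only [h7, if_true] at h6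
          simp only [h7, Bool.not_true, Bool.false_or, decide_eq_true_eq]
          omega
        · simp [h7]
      simp only [h4, h5, Bool.not_true, Bool.false_or] at h3
      refine ih (subI w d) h3 L' (fun D hD' => hL D (Multiset.mem_cons_of_mem hD')) ?_
      rw [toF_subI]
      funext i
      have := congrFun hsum i
      simp only [Pi.add_apply] at this
      omega

/-- the weight one on two disjoint pentagons and two on the perfect matching between them -/
theorem w10_uncov (L : Multiset (Fin 15 → ℕ)) (hL : ∀ D ∈ L, ∃ d ∈ EV, D = toI d) :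
    L.sum ≠ toF [1, 2, 1, 1, 2, 1, 1, 1, 2, 1, 2, 1, 1, 1, 2] :=
  uncov_sound 6 _ (by decide +kernel) L hL

/-- the same with weight three on the edges 5, 6, 7, 9 -/
theorem wR_uncov (L : Multiset (Fin 15 → ℕ)) (hL : ∀ D ∈ L, ∃ d ∈ EV, D = toI d) :
    L.sum ≠ toF [1, 2, 1, 1, 2, 3, 3, 3, 2, 3, 2, 1, 1, 1, 2] :=
  uncov_sound 7 _ (by decide +kernel) L hL

/-- the even set with prescribed values on the edges outside a spanning tree -/
def vec (b4 b10 b11 b12 b13 b14 : Bool) : Fin 15 → Bool :=
  let x5 := xor b10 b13
  let x6 := xor b11 b14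
  let x7 := xor b10 b12
  let x8 := xor b11 b13
  let x9 := xor b12 b14
  let x3 := xor b4 x9
  let x2 := xor x3 x8
  let x1 := xor x2 x7
  let x0 := xor x1 x6
  ![x0, x1, x2, x3, b4, x5, x6, x7, x8, x9, b10, b11, b12, b13, b14]

theorem vec_mem : ∀ b4 b10 b11 b12 b13 b14 : Bool,
    ∃ d ∈ EV, ∀ e : Fin 15, vec b4 b10 b11 b12 b13 b14 e = Nat.testBit d e.1 := by
  decide +kernel

theorem xor3 {a b c : Bool} (h : xor a (xor b c) = false) : a = xor b c := by
  revert h; cases a <;> cases b <;> cases c <;> simp

/-- every even set of edges is in the list (evenness at the vertices `1, …, 9` is enough) -/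
theorem mem_EV (x : Fin 15 → Bool)
    (h1 : xor (x 0) (xor (x 1) (x 6)) = false)
    (h2 : xor (x 1) (xor (x 2) (x 7)) = false)
    (h3 : xor (x 2) (xor (x 3) (x 8)) = false)
    (h4 : xor (x 3) (xor (x 4) (x 9)) = false)
    (h5 : xor (x 5) (xor (x 10) (x 13)) = false)
    (h6 : xor (x 6) (xor (x 11) (x 14)) = false)
    (h7 : xor (x 7) (xor (x 10) (x 12)) = false)
    (h8 : xor (x 8) (xor (x 11) (x 13)) = false)
    (h9 : xor (x 9) (xor (x 12) (x 14)) = false) :
    ∃ d ∈ EV, ∀ e : Fin 15, x e = Nat.testBit d e.1 := by
  have e : x = vec (x 4) (x 10) (x 11) (x 12) (x 13) (x 14) := by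
    have h1 := xor3 h1
    have h2 := xor3 h2
    have h3 := xor3 h3
    have h4 := xor3 h4
    have h5 := xor3 h5
    have h6 := xor3 h6
    have h7 := xor3 h7
    have h8 := xor3 h8
    have h9 := xor3 h9
    rw [h9] at h4
    rw [h4, h8] at h3
    rw [h3, h7] at h2
    rw [h2, h6] at h1
    funext i
    fin_cases i
    exacts [h1, h2, h3, h4, rfl, h5, h6, h7, h8, h9, rfl, rfl, rfl, rfl, rfl]
  rw [e]
  exact vec_mem _ _ _ _ _ _

end Pool.Agent.TH509.Red
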